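import Mathlib

set_option autoImplicit false

namespace Pool.Agent.Results.MP_74be22_co.NoBoundedTransversal

open Finset

/-- One step of the binomial ratio estimate. -/
lemma choose_step (m h : ℕ) (hm : 4 * h ≤ 3 * (m + 1)) :
    (m + 1).choose h ≤ 4 * m.choose h := by
  have h1 := Nat.choose_mul_succ_eq m h
  have h2 : m + 1 ≤ 4 * (m + 1 - h) := by omega
  have h3 : (m + 1).choose h * (m + 1) ≤ (4 * m.choose h) * (m + 1) := by
    calc (m + 1).choose h * (m + 1) ≤ (m + 1).choose h * (4 * (m + 1 - h)) :=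
          Nat.mul_le_mul_left _ h2
      _ = 4 * ((m + 1).choose h * (m + 1 - h)) := by ring
      _ = 4 * (m.choose h * (m + 1)) := by rw [h1]
      _ = (4 * m.choose h) * (m + 1) := by ring
  exact Nat.le_of_mul_le_mul_right h3 (Nat.succ_pos m)

/-- Iterated binomial ratio estimate. -/
lemma choose_ratio (m h : ℕ) (hm : 4 * h ≤ 3 * (m + 1)) (j : ℕ) :
    (m + j).choose h ≤ 4 ^ j * m.choose h := by
  induction j with
  | zero => simp
  | succ j ih =>
    have h1 := choose_step (m + j) h (by omega)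
    calc (m + (j + 1)).choose h = (m + j + 1).choose h := by ring_nf
      _ ≤ 4 * (m + j).choose h := h1
      _ ≤ 4 * (4 ^ j * m.choose h) := Nat.mul_le_mul_left _ ih
      _ = 4 ^ (j + 1) * m.choose h := by ring

/-- The number of subsets of size at most `s`. -/
lemma card_small_subsets {X : Type} [Fintype X] [DecidableEq X] (s : ℕ) :
    ((univ : Finset (Finset X)).filter (fun S => S.card ≤ s)).card ≤ (Fintype.card X + 1) ^ s := by
  have h1 : (univ : Finset (Finset X)).filter (fun S => S.card ≤ s)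
      ⊆ (range (s + 1)).biUnion (fun i => powersetCard i (univ : Finset X)) := by
    intro S hS
    simp only [mem_filter, mem_univ, true_and] at hS
    simp only [mem_biUnion, mem_range, mem_powersetCard, subset_univ, true_and]
    exact ⟨S.card, by omega, rfl⟩
  refine le_trans (card_le_card h1) (le_trans card_biUnion_le ?_)
  rw [add_pow]
  refine sum_le_sum (fun i hi => ?_)
  rw [card_powersetCard, card_univ, one_pow, mul_one]
  have h2 : 1 ≤ s.choose i := Nat.choose_pos (by simpa [Nat.lt_succ_iff] using hi)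
  calc (Fintype.card X).choose i ≤ (Fintype.card X) ^ i := Nat.choose_le_pow _ _
    _ = (Fintype.card X) ^ i * 1 := (mul_one _).symm
    _ ≤ (Fintype.card X) ^ i * s.choose i := Nat.mul_le_mul_left _ h2

/-- Few `h`-subsets of an odd-size set are met by a small set, relatively speaking. -/
lemma card_meeting {F : Type} [Fintype F] [DecidableEq F] (h J : ℕ)
    (hF : Fintype.card F = 2 * h + 1) (hJ : 3 * J ≤ 2 * h) (D : Finset F) (hD : D.card ≤ J) :
    4 ^ J * ((powersetCard h (univ : Finset F)).filter (fun W => (W ∩ D).Nonempty)).card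
      ≤ (4 ^ J - 1) * (2 * h + 1).choose h := by
  have hsplit := card_filter_add_card_filter_not (s := powersetCard h (univ : Finset F))
    (fun W => (W ∩ D).Nonempty)
  have hnot : ((powersetCard h (univ : Finset F)).filter (fun W => ¬ (W ∩ D).Nonempty))
      = powersetCard h (univ \ D) := by
    ext W
    simp only [mem_filter, mem_powersetCard, subset_univ, true_and, not_nonempty_iff_eq_empty]
    constructor
    · rintro ⟨h1, h2⟩
      refine ⟨?_, h1⟩
      intro x hx
      simp only [mem_sdiff, mem_univ, true_and]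
      intro hxD
      have : x ∈ W ∩ D := mem_inter.mpr ⟨hx, hxD⟩
      rw [h2] at this
      simp at this
    · rintro ⟨h1, h2⟩
      refine ⟨h2, ?_⟩
      ext x
      simp only [mem_inter, notMem_empty, iff_false, not_and]
      intro hx
      have := h1 hx
      simp only [mem_sdiff, mem_univ, true_and] at this
      exact this
  rw [hnot, card_powersetCard, card_powersetCard, card_univ, hF, card_sdiff, inter_univ,
    card_univ, hF] at hsplit
  have hr := choose_ratio (2 * h + 1 - D.card) h (by omega) D.card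
  have he : 2 * h + 1 - D.card + D.card = 2 * h + 1 := by omega
  rw [he] at hr
  have hr2 : (2 * h + 1).choose h ≤ 4 ^ J * (2 * h + 1 - D.card).choose h :=
    le_trans hr (Nat.mul_le_mul_right _ (Nat.pow_le_pow_right (by norm_num) hD))
  set M := ((powersetCard h (univ : Finset F)).filter (fun W => (W ∩ D).Nonempty)).card with hM
  set N := (2 * h + 1).choose h with hN
  set K := (2 * h + 1 - D.card).choose h with hK
  have h4 : 1 ≤ 4 ^ J := Nat.one_le_pow _ _ (by norm_num)
  obtain ⟨q, hq⟩ : ∃ q, 4 ^ J = q + 1 := ⟨4 ^ J - 1, by omega⟩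
  rw [hq] at hr2 ⊢
  have : (q + 1) * (M + K) = (q + 1) * N := by rw [hsplit]
  simp only [Nat.add_sub_cancel]
  nlinarith

/-- Polynomials times geometric sequences: the union bound closes for some large prime. -/
lemma exists_prime (J : ℕ) : ∃ p : ℕ, p.Prime ∧ 3 ≤ p ∧ 3 * J + 1 ≤ p ∧
    (p ^ 2 + 1) ^ (J * p) * (4 ^ J - 1) ^ (p ^ 2) < 4 ^ (J * p ^ 2) := by
  have h4 : (1 : ℝ) ≤ 4 ^ J := one_le_pow₀ (by norm_num)
  have hr0 : (0 : ℝ) ≤ 1 - 1 / 4 ^ J := by
    have : (1 : ℝ) / 4 ^ J ≤ 1 := by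
      rw [div_le_one (by positivity)]; exact h4
    linarith
  have hr1 : (1 : ℝ) - 1 / 4 ^ J < 1 := by
    have : (0 : ℝ) < 1 / 4 ^ J := by positivity
    linarith
  have ht := tendsto_pow_const_mul_const_pow_of_lt_one (2 * J) hr0 hr1
  have ht2 := ht.const_mul ((2 : ℝ) ^ J)
  rw [mul_zero] at ht2
  have hev := ht2.eventually (gt_mem_nhds (show (0 : ℝ) < 1 by norm_num))
  obtain ⟨n₀, hn₀⟩ := Filter.eventually_atTop.mp hev
  obtain ⟨p, hp1, hp⟩ := Nat.exists_infinite_primes (max n₀ (3 * J + 3))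
  have hpn : n₀ ≤ p := le_trans (le_max_left _ _) hp1
  have hpJ : 3 * J + 3 ≤ p := le_trans (le_max_right _ _) hp1
  refine ⟨p, hp, by omega, by omega, ?_⟩
  have hkey := hn₀ p hpn
  -- (p^2+1)^J * r^p < 1
  have hp1' : (1 : ℝ) ≤ (p : ℝ) := by exact_mod_cast hp.one_lt.le
  have hbound : ((p : ℝ) ^ 2 + 1) ^ J * (1 - 1 / 4 ^ J) ^ p < 1 := by
    refine lt_of_le_of_lt ?_ hkey
    have h5 : ((p : ℝ) ^ 2 + 1) ^ J ≤ (2 * (p : ℝ) ^ 2) ^ J := by
      apply pow_le_pow_left₀ (by positivity)
      nlinarith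
    have h6 : (2 * (p : ℝ) ^ 2) ^ J = 2 ^ J * (p : ℝ) ^ (2 * J) := by
      rw [mul_pow, ← pow_mul]
    have h7 : (0 : ℝ) ≤ (1 - 1 / 4 ^ J) ^ p := pow_nonneg hr0 _
    calc ((p : ℝ) ^ 2 + 1) ^ J * (1 - 1 / 4 ^ J) ^ p
        ≤ (2 ^ J * (p : ℝ) ^ (2 * J)) * (1 - 1 / 4 ^ J) ^ p := by
          rw [← h6]; exact mul_le_mul_of_nonneg_right h5 h7
      _ = 2 ^ J * ((p : ℝ) ^ (2 * J) * (1 - 1 / 4 ^ J) ^ p) := by ring
  have hnn : (0 : ℝ) ≤ ((p : ℝ) ^ 2 + 1) ^ J * (1 - 1 / 4 ^ J) ^ p := by positivity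
  have hpow : (((p : ℝ) ^ 2 + 1) ^ J * (1 - 1 / 4 ^ J) ^ p) ^ p < 1 :=
    pow_lt_one₀ hnn hbound hp.ne_zero
  have hreal : ((p : ℝ) ^ 2 + 1) ^ (J * p) * ((4 : ℝ) ^ J - 1) ^ (p ^ 2) < 4 ^ (J * p ^ 2) := by
    have h8 : (1 : ℝ) - 1 / 4 ^ J = (4 ^ J - 1) / 4 ^ J := by
      field_simp
    rw [h8, mul_pow, ← pow_mul, ← pow_mul, div_pow, ← pow_mul, ← pow_two, ← mul_div_assoc,
      div_lt_one (by positivity)] at hpow
    exact hpow
  have hcast : (((4 ^ J - 1 : ℕ)) : ℝ) = (4 : ℝ) ^ J - 1 := by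
    rw [Nat.cast_sub (Nat.one_le_pow _ _ (by norm_num))]
    push_cast
    ring
  have : (((p ^ 2 + 1) ^ (J * p) * (4 ^ J - 1) ^ (p ^ 2) : ℕ) : ℝ) < ((4 ^ (J * p ^ 2) : ℕ) : ℝ) := by
    rw [Nat.cast_mul, Nat.cast_pow, Nat.cast_pow, hcast]
    push_cast
    exact hreal
  exact_mod_cast this

/-- The trace of a point set `S` on the line `y = a x + b`, recorded by first coordinates. -/
def trace {F : Type} [Fintype F] [DecidableEq F] [Field F] (S : Finset (F × F)) (ab : F × F) :
    Finset F :=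
  univ.filter (fun x => (x, ab.1 * x + ab.2) ∈ S)

/-- Counting argument: some choice of an `h`-subset on each line admits no point set which meets
every chosen subset and has at most `J` points on each line. -/
lemma exists_config {F : Type} [Fintype F] [DecidableEq F] [Field F] (h J : ℕ)
    (hF : Fintype.card F = 2 * h + 1) (hJ : 3 * J ≤ 2 * h)
    (hineq : (Fintype.card F ^ 2 + 1) ^ (J * Fintype.card F) * (4 ^ J - 1) ^ (Fintype.card F ^ 2)
      < 4 ^ (J * Fintype.card F ^ 2)) :
    ∃ ω : F × F → Finset F, (∀ ab, (ω ab).card = h) ∧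
      ∀ S : Finset (F × F), (∀ ab, (trace S ab).card ≤ J) → ∃ ab, ¬ (ω ab ∩ trace S ab).Nonempty := by
  classical
  by_contra hcon
  push Not at hcon
  set p := Fintype.card F with hp
  set N := (2 * h + 1).choose h with hN
  have hNpos : 0 < N := Nat.choose_pos (by omega)
  let Ω : Finset (F × F → Finset F) := Fintype.piFinset (fun _ => powersetCard h univ)
  let 𝒮 : Finset (Finset (F × F)) := univ.filter (fun S => ∀ ab, (trace S ab).card ≤ J)
  let G : Finset (F × F) → Finset (F × F → Finset F) := fun S =>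
    Fintype.piFinset (fun ab => (powersetCard h univ).filter (fun W => (W ∩ trace S ab).Nonempty))
  have hcardX : Fintype.card (F × F) = p ^ 2 := by
    rw [Fintype.card_prod, ← hp, pow_two]
  have hΩ : Ω.card = N ^ (p ^ 2) := by
    have hN' : (Fintype.card F).choose h = N := congrArg (fun z => z.choose h) hF
    simp only [Ω, Fintype.card_piFinset, card_powersetCard, card_univ, prod_const, hcardX, hN']
  have h𝒮 : 𝒮.card ≤ (p ^ 2 + 1) ^ (J * p) := by
    have h1 : 𝒮 ⊆ (univ : Finset (Finset (F × F))).filter (fun S => S.card ≤ J * p) := by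
      intro S hS
      simp only [𝒮, mem_filter, mem_univ, true_and] at hS ⊢
      have h2 : S.card = ∑ b : F, (trace S (0, b)).card := by
        have h3 : S = (univ : Finset F).biUnion (fun b => (trace S (0, b)).image (fun x => (x, b))) := by
          ext ⟨x, y⟩
          simp only [mem_biUnion, mem_univ, true_and, mem_image, trace, mem_filter, zero_mul,
            zero_add, Prod.mk.injEq]
          constructor
          · intro hxy
            exact ⟨y, x, hxy, rfl, rfl⟩
          · rintro ⟨b, x', hx', rfl, rfl⟩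
            exact hx'
        conv_lhs => rw [h3]
        rw [card_biUnion]
        · refine sum_congr rfl (fun b _ => ?_)
          rw [card_image_of_injective]
          intro x x' hxx
          simpa using hxx
        · intro b _ b' _ hbb
          rw [Function.onFun, disjoint_left]
          rintro ⟨x, y⟩ h4 h5
          simp only [mem_image, Prod.mk.injEq] at h4 h5
          obtain ⟨_, _, _, h6⟩ := h4
          obtain ⟨_, _, _, h7⟩ := h5
          exact hbb (h6.trans h7.symm)
      rw [h2]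
      calc ∑ b : F, (trace S (0, b)).card ≤ ∑ _b : F, J := sum_le_sum (fun b _ => hS (0, b))
        _ = J * p := by rw [sum_const, card_univ, smul_eq_mul, mul_comm]
    refine le_trans (card_le_card h1) ?_
    have h2 := card_small_subsets (X := F × F) (J * p)
    rw [hcardX] at h2
    exact h2
  have hG : ∀ S ∈ 𝒮, (4 ^ J) ^ (p ^ 2) * (G S).card ≤ ((4 ^ J - 1) * N) ^ (p ^ 2) := by
    intro S hS
    simp only [𝒮, mem_filter, mem_univ, true_and] at hS
    simp only [G, Fintype.card_piFinset]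
    rw [← hcardX, ← card_univ (α := F × F), ← prod_const, ← prod_const, ← prod_mul_distrib]
    refine prod_le_prod' (fun ab _ => ?_)
    exact card_meeting h J hF hJ (trace S ab) (hS ab)
  have hcover : Ω ⊆ 𝒮.biUnion G := by
    intro ω hω
    simp only [Ω, Fintype.mem_piFinset, mem_powersetCard, subset_univ, true_and] at hω
    obtain ⟨S, hS1, hS2⟩ := hcon ω hω
    simp only [mem_biUnion, 𝒮, mem_filter, mem_univ, true_and, G, Fintype.mem_piFinset,
      mem_powersetCard, subset_univ]
    exact ⟨S, hS1, fun ab => ⟨hω ab, hS2 ab⟩⟩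
  have h1 : N ^ (p ^ 2) ≤ ∑ S ∈ 𝒮, (G S).card := by
    rw [← hΩ]
    exact le_trans (card_le_card hcover) card_biUnion_le
  have h2 : (4 ^ J) ^ (p ^ 2) * N ^ (p ^ 2) ≤ 𝒮.card * ((4 ^ J - 1) * N) ^ (p ^ 2) := by
    calc (4 ^ J) ^ (p ^ 2) * N ^ (p ^ 2) ≤ (4 ^ J) ^ (p ^ 2) * ∑ S ∈ 𝒮, (G S).card :=
          Nat.mul_le_mul_left _ h1
      _ = ∑ S ∈ 𝒮, (4 ^ J) ^ (p ^ 2) * (G S).card := mul_sum _ _ _
      _ ≤ ∑ S ∈ 𝒮, ((4 ^ J - 1) * N) ^ (p ^ 2) := sum_le_sum hG
      _ = 𝒮.card * ((4 ^ J - 1) * N) ^ (p ^ 2) := by rw [sum_const, smul_eq_mul]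
  have h3 : (4 ^ J) ^ (p ^ 2) * N ^ (p ^ 2)
      ≤ ((p ^ 2 + 1) ^ (J * p) * (4 ^ J - 1) ^ (p ^ 2)) * N ^ (p ^ 2) := by
    refine le_trans h2 ?_
    rw [mul_pow, ← mul_assoc]
    exact Nat.mul_le_mul_right _ (Nat.mul_le_mul_right _ h𝒮)
  have h4 := Nat.le_of_mul_le_mul_right h3 (pow_pos hNpos _)
  rw [← pow_mul] at h4
  omega

/-- **Disproof of Q1.** It is not true that for every `c₁ > 0` there is a `C` such that every finite
family of subsets `A k` of a finite set `X` (with `n = |X|`) satisfying `|A k| > c₁ √n` and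
`|A k ∩ A l| ≤ 1` for `k ≠ l` has a `C`-bounded transversal. -/
theorem result :
    ¬ (∀ c₁ : ℝ, 0 < c₁ → ∃ C : ℕ, 1 ≤ C ∧
        ∀ (X : Type) [Fintype X] [DecidableEq X] (ι : Type) [Fintype ι] (A : ι → Finset X),
          (∀ k, c₁ * Real.sqrt (Fintype.card X) < ((A k).card : ℝ)) →
          (∀ k l, k ≠ l → (A k ∩ A l).card ≤ 1) →
          ∃ S : Finset X, ∀ k, 1 ≤ (A k ∩ S).card ∧ (A k ∩ S).card ≤ C) := by
  classical
  intro hQ
  obtain ⟨C, _, hC⟩ := hQ (1 / 4) (by norm_num)
  obtain ⟨p, hp, hp3, hpJ, hineq⟩ := exists_prime (2 * C)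
  have : Fact p.Prime := ⟨hp⟩
  obtain ⟨h, hh⟩ : ∃ h, p = 2 * h + 1 := by
    have hodd : Odd p := hp.odd_of_ne_two (by omega)
    obtain ⟨h, hh⟩ := hodd
    exact ⟨h, hh⟩
  have hF : Fintype.card (ZMod p) = 2 * h + 1 := by rw [ZMod.card]; exact hh
  obtain ⟨ω, hω, hbad⟩ := exists_config (F := ZMod p) h (2 * C) hF (by omega)
    (by rw [ZMod.card]; exact hineq)
  let g : ZMod p × ZMod p → ZMod p → ZMod p × ZMod p := fun ab x => (x, ab.1 * x + ab.2)
  have hg : ∀ ab, Function.Injective (g ab) := by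
    intro ab x x' hxx
    exact (Prod.mk.inj hxx).1
  let W : (ZMod p × ZMod p) × Bool → Finset (ZMod p) := fun k => if k.2 then ω k.1 else (ω k.1)ᶜ
  let A : (ZMod p × ZMod p) × Bool → Finset (ZMod p × ZMod p) := fun k => (W k).image (g k.1)
  have hWcard : ∀ k, h ≤ (W k).card := by
    rintro ⟨ab, b⟩
    cases b
    · simp only [W, Bool.false_eq_true, if_false, card_compl, hF, hω]
      omega
    · simp only [W, if_true, hω]
      exact le_rfl
  have hAcard : ∀ k, (1 / 4 : ℝ) * Real.sqrt (Fintype.card (ZMod p × ZMod p)) < ((A k).card : ℝ) := by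
    intro k
    have h1 : (A k).card = (W k).card := card_image_of_injective _ (hg k.1)
    rw [h1, Fintype.card_prod, ZMod.card]
    push_cast
    rw [Real.sqrt_mul_self (by positivity)]
    have h2 : (h : ℝ) ≤ ((W k).card : ℝ) := by exact_mod_cast hWcard k
    have h3 : (p : ℝ) = 2 * h + 1 := by rw [hh]; push_cast; ring
    have h4 : (1 : ℝ) ≤ h := by
      have : 1 ≤ h := by omega
      exact_mod_cast this
    linarith
  have hAint : ∀ k l, k ≠ l → (A k ∩ A l).card ≤ 1 := by
    rintro ⟨ab, b⟩ ⟨cd, d⟩ hkl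
    rw [card_le_one]
    intro z hz z' hz'
    simp only [A, mem_inter, mem_image] at hz hz'
    obtain ⟨⟨x, hx, hxz⟩, ⟨y, hy, hyz⟩⟩ := hz
    obtain ⟨⟨x', hx', hxz'⟩, ⟨y', hy', hyz'⟩⟩ := hz'
    have e1 : x = y := (Prod.mk.inj (hxz.trans hyz.symm)).1
    have e2 : ab.1 * x + ab.2 = cd.1 * y + cd.2 := (Prod.mk.inj (hxz.trans hyz.symm)).2
    have e3 : x' = y' := (Prod.mk.inj (hxz'.trans hyz'.symm)).1
    have e4 : ab.1 * x' + ab.2 = cd.1 * y' + cd.2 := (Prod.mk.inj (hxz'.trans hyz'.symm)).2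
    subst e1
    subst e3
    by_cases habcd : ab = cd
    · exfalso
      subst habcd
      have hbd : b ≠ d := fun hbd => hkl (by rw [hbd])
      have hmem : ∀ (e : Bool), x ∈ W (ab, e) → (e = true ↔ x ∈ ω ab) := by
        intro e he
        cases e
        · simp only [W, Bool.false_eq_true, if_false, mem_compl] at he
          simp only [Bool.false_eq_true, he]
        · simp only [W, if_true] at he
          simp only [he]
      have hb := hmem b hx
      have hd := hmem d hy
      apply hbd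
      rw [Bool.eq_iff_iff, hb, hd]
    · have hxx : x = x' := by
        by_contra hne
        have h5 : (ab.1 - cd.1) * (x - x') = 0 := by linear_combination e2 - e4
        rcases mul_eq_zero.mp h5 with h6 | h6
        · apply habcd
          have h7 : ab.1 = cd.1 := sub_eq_zero.mp h6
          have h8 : ab.2 = cd.2 := by
            rw [h7] at e2
            exact add_left_cancel e2
          exact Prod.ext h7 h8
        · exact hne (sub_eq_zero.mp h6)
      rw [← hxz, ← hxz', hxx]
  obtain ⟨S, hS⟩ := hC (ZMod p × ZMod p) ((ZMod p × ZMod p) × Bool) A hAcard hAint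
  have htr : ∀ k, (A k ∩ S).card = (W k ∩ trace S k.1).card := by
    intro k
    have h1 : A k ∩ S = (W k ∩ trace S k.1).image (g k.1) := by
      ext z
      simp only [A, mem_inter, mem_image, trace, mem_filter, mem_univ, true_and]
      constructor
      · rintro ⟨⟨x, hx, rfl⟩, hzS⟩
        exact ⟨x, ⟨hx, hzS⟩, rfl⟩
      · rintro ⟨x, ⟨hx, hxS⟩, rfl⟩
        exact ⟨⟨x, hx, rfl⟩, hxS⟩
    rw [h1, card_image_of_injective _ (hg k.1)]
  obtain ⟨ab, hab⟩ := hbad S (by
    intro ab
    have h1 := (hS (ab, true)).2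
    have h2 := (hS (ab, false)).2
    rw [htr] at h1 h2
    simp only [W, if_true, Bool.false_eq_true, if_false] at h1 h2
    have h3 : (trace S ab).card = (ω ab ∩ trace S ab).card + ((ω ab)ᶜ ∩ trace S ab).card := by
      rw [← card_union_of_disjoint]
      · congr 1
        ext x
        simp only [mem_union, mem_inter, mem_compl]
        tauto
      · rw [disjoint_left]
        intro x hx hx'
        simp only [mem_inter, mem_compl] at hx hx'
        exact hx'.1 hx.1
    omega)
  apply hab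
  have h1 := (hS (ab, true)).1
  rw [htr] at h1
  simp only [W, if_true] at h1
  exact card_pos.mp h1

end Pool.Agent.Results.MP_74be22_co.NoBoundedTransversal
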